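import Pool.Agent.H642.KK.Stm2

set_option autoImplicit false

/-! The uniqueness of the compact metrizable zero-dimensional spaces of type `NT2`, by
the criterion of Vaught (`S_VT`): proof of `S_VT → S_N2`. -/

namespace Pool.Agent.H921.KK

open Set TopologicalSpace
open Pool.Agent.H642.CK (Io fin_io clopen_fin)
open Pool.Agent.H642.KK (L2 NT2 S_VT S_N2)

section

variable {Z : Type} [TopologicalSpace Z]

/-- the limit points of `E` (for the space `Z`) -/
def lim (E : Set Z) : Set Z := {x | x ∈ E ∧ ¬ Io x}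

/-- the points of rank one of `E` -/
def r1 (E : Set Z) : Set Z := {x | x ∈ E ∧ ¬ Io x ∧ x ∉ L2 Z}

theorem l2_not_io {x : Z} (hx : x ∈ L2 Z) : ¬ Io x := by
  intro h
  obtain ⟨y, hy, hne, -⟩ := hx {x} h rfl
  exact hne hy

theorem lim_of_fin [T1Space Z] {E : Set Z} (hE : IsClopen E) (hf : E.Finite) :
    lim E = ∅ := by
  refine eq_empty_iff_forall_notMem.2 ?_
  rintro x ⟨hx, hn⟩
  apply hn
  have h0 : ({x} : Set Z) = E \ (E \ {x}) := by
    ext z
    constructor
    · rintro rfl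
      exact ⟨hx, fun h => h.2 rfl⟩
    · rintro ⟨h1, h2⟩
      by_contra h3
      exact h2 ⟨h1, h3⟩
  show IsOpen ({x} : Set Z)
  rw [h0]
  exact hE.isOpen.sdiff (hf.subset diff_subset).isClosed

theorem fin_of_lim [CompactSpace Z] {E : Set Z} (hE : IsClopen E) (h : lim E = ∅) :
    E.Finite := by
  refine fin_io hE.isClosed fun x hx => ?_
  by_contra hn
  exact eq_empty_iff_forall_notMem.1 h x ⟨hx, hn⟩

theorem not_l2 {x : Z} (h : x ∉ L2 Z) :
    ∃ U : Set Z, IsOpen U ∧ x ∈ U ∧ ∀ y ∈ U, y ≠ x → Io y := by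
  by_contra hcon
  apply h
  intro U hU hxU
  by_contra h2
  apply hcon
  refine ⟨U, hU, hxU, fun y hy hne => ?_⟩
  by_contra h3
  exact h2 ⟨y, hy, hne, h3⟩

theorem lim_fin [CompactSpace Z] {E : Set Z} (hE : IsClopen E) (h : ∀ x ∈ E, x ∉ L2 Z) :
    (lim E).Finite := by
  have h1 : ∀ x ∈ E, ∃ U : Set Z, IsOpen U ∧ x ∈ U ∧ ∀ y ∈ U, y ≠ x → Io y :=
    fun x hx => not_l2 (h x hx)
  choose! U hU hxU hU' using h1
  obtain ⟨t, ht, h2⟩ := hE.isClosed.isCompact.elim_nhds_subcover U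
    (fun x hx => (hU x hx).mem_nhds (hxU x hx))
  refine t.finite_toSet.subset ?_
  rintro x ⟨hx, hn⟩
  have h3 := h2 hx
  simp only [mem_iUnion] at h3
  obtain ⟨y, hy, h4⟩ := h3
  by_cases hxy : x = y
  · rw [hxy]
    exact hy
  · exact (hn (hU' y (ht y hy) x h4 hxy)).elim

variable [CompactSpace Z] [T2Space Z] [TotallyDisconnectedSpace Z]

theorem r1_nb {F : Set Z} (hF : IsClopen F) {y : Z} (hy : y ∈ r1 F) :
    ∃ B : Set Z, IsClopen B ∧ B ⊆ F ∧ lim B = {y} := by
  obtain ⟨hy, hn, hl⟩ := hy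
  obtain ⟨U, hU, hyU, hU'⟩ := not_l2 hl
  obtain ⟨B, hB, hyB, hBU⟩ := compact_exists_isClopen_in_isOpen (hU.inter hF.isOpen) ⟨hyU, hy⟩
  refine ⟨B, hB, fun x hx => (hBU hx).2, ?_⟩
  ext x
  constructor
  · rintro ⟨hx, hx'⟩
    by_contra hne
    exact hx' (hU' x (hBU hx).1 hne)
  · rintro rfl
    exact ⟨hyB, hn⟩

theorem r1_set {F : Set Z} (hF : IsClopen F) {S : Set Z} (hS : S.Finite) (h : S ⊆ r1 F) :
    ∃ B : Set Z, IsClopen B ∧ B ⊆ F ∧ lim B = S := by
  have h1 : ∀ y ∈ S, ∃ B : Set Z, IsClopen B ∧ B ⊆ F ∧ lim B = {y} :=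
    fun y hy => r1_nb hF (h hy)
  choose! B hB hBF hlim using h1
  refine ⟨⋃ y ∈ S, B y, hS.isClopen_biUnion fun y hy => hB y hy,
    iUnion₂_subset fun y hy => hBF y hy, ?_⟩
  ext x
  constructor
  · rintro ⟨hx, hn⟩
    simp only [mem_iUnion] at hx
    obtain ⟨y, hy, hx⟩ := hx
    have h2 : x ∈ lim (B y) := ⟨hx, hn⟩
    rw [hlim y hy] at h2
    rw [mem_singleton_iff.1 h2]
    exact hy
  · intro hx
    have h2 : x ∈ lim (B x) := by
      rw [hlim x hx]
      rfl
    exact ⟨mem_iUnion₂.2 ⟨x, hx, h2.1⟩, h2.2⟩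

theorem inf_io {F : Set Z} (hF : IsClopen F) (h : (r1 F).Nonempty) :
    {x | x ∈ F ∧ Io x}.Infinite := by
  obtain ⟨y, hy⟩ := h
  obtain ⟨B, hB, hBF, hlim⟩ := r1_nb hF hy
  have h1 : B.Infinite := by
    intro hf
    have h2 := lim_of_fin hB hf
    rw [hlim] at h2
    exact (singleton_nonempty y).ne_empty h2
  have h2 : (B \ {y}).Infinite := h1.diff (finite_singleton y)
  refine h2.mono ?_
  rintro x ⟨hx, hne⟩
  refine ⟨hBF hx, ?_⟩
  by_contra hn
  have h3 : x ∈ lim B := ⟨hx, hn⟩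
  rw [hlim] at h3
  exact hne h3

theorem inf_r1 (hZ : NT2 Z) {F : Set Z} (hF : IsClopen F) (h : (F ∩ L2 Z).Nonempty) :
    (r1 F).Infinite := by
  intro hf
  obtain ⟨x, hx, hxl⟩ := h
  have h1 : IsOpen (F \ r1 F) := hF.isOpen.sdiff hf.isClosed
  obtain ⟨y, hy, hn, hl⟩ := hZ.r1 x hxl _ h1 ⟨hx, fun h => h.2.2 hxl⟩
  exact hy.2 ⟨hy.1, hn, hl⟩

end

/-! the types -/

/-- addition of types -/
def add : Option (ℕ × ℕ) → Option (ℕ × ℕ) → Option (ℕ × ℕ)
  | some a, some b => some (a.1 + b.1, if a.1 + b.1 = 0 then a.2 + b.2 else 0)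
  | _, _ => none

theorem add_some (a b : ℕ × ℕ) :
    add (some a) (some b) = some (a.1 + b.1, if a.1 + b.1 = 0 then a.2 + b.2 else 0) := rfl

theorem add_none (t : Option (ℕ × ℕ)) : add t none = none := by
  cases t <;> rfl

theorem none_add (t : Option (ℕ × ℕ)) : add none t = none := by
  cases t <;> rfl

theorem add_comm' (s t : Option (ℕ × ℕ)) : add s t = add t s := by
  cases s with
  | none => rw [none_add, add_none]
  | some a =>
    cases t with
    | none => rw [none_add, add_none]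
    | some b => rw [add_some, add_some, Nat.add_comm a.1, Nat.add_comm a.2]

/-- admissible types -/
def Adm (t : Option (ℕ × ℕ)) : Prop := ∀ a, t = some a → a.1 = 0 ∨ a.2 = 0

theorem cancel {s r : Option (ℕ × ℕ)} {a : ℕ × ℕ} (hs : Adm s) (hr : Adm r)
    (h : add (some a) s = add (some a) r)
    (hc : a.1 = 0 ∨ ∀ b, r = some b → 0 < b.1) : s = r := by
  cases s with
  | none =>
    cases r with
    | none => rfl
    | some b =>
      rw [add_none, add_some] at h
      cases h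
  | some c =>
    cases r with
    | none =>
      rw [add_none, add_some] at h
      cases h
    | some b =>
      rw [add_some, add_some] at h
      have h1 := Option.some.inj h
      have h2 : a.1 + c.1 = a.1 + b.1 := congrArg Prod.fst h1
      have h3 : (if a.1 + c.1 = 0 then a.2 + c.2 else 0)
        = if a.1 + b.1 = 0 then a.2 + b.2 else 0 := congrArg Prod.snd h1
      have h4 : c.1 = b.1 := by omega
      have h5 := hs c rfl
      have h6 := hr b rfl
      have h7 : c.2 = b.2 := by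
        by_cases h0 : b.1 = 0
        · rcases hc with hc | hc
          · rw [if_pos (by omega), if_pos (by omega)] at h3
            omega
          · have := hc b rfl
            omega
        · omega
      exact congrArg some (Prod.ext h4 h7)

section

variable {Z : Type} [TopologicalSpace Z]

open Classical in
/-- the type of a clopen set -/
noncomputable def Ty (E : Set Z) : Option (ℕ × ℕ) :=
  if (E ∩ L2 Z).Nonempty then none else some ((lim E).ncard, E.ncard)

theorem ty_none {E : Set Z} (h : (E ∩ L2 Z).Nonempty) : Ty E = none := if_pos h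

theorem ty_some {E : Set Z} (h : ¬ (E ∩ L2 Z).Nonempty) :
    Ty E = some ((lim E).ncard, E.ncard) := if_neg h

theorem ty_none_iff {E : Set Z} : Ty E = none ↔ (E ∩ L2 Z).Nonempty := by
  constructor
  · intro h
    by_contra hn
    rw [ty_some hn] at h
    cases h
  · exact ty_none

theorem ty_some_iff {E : Set Z} {a : ℕ × ℕ} (h : Ty E = some a) :
    (∀ x ∈ E, x ∉ L2 Z) ∧ (lim E).ncard = a.1 ∧ E.ncard = a.2 := by
  by_cases hn : (E ∩ L2 Z).Nonempty
  · rw [ty_none hn] at h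
    cases h
  · rw [ty_some hn] at h
    have h1 := Option.some.inj h
    subst h1
    exact ⟨fun x hx hx' => hn ⟨x, hx, hx'⟩, rfl, rfl⟩

variable [CompactSpace Z] [T2Space Z]

theorem ty_adm {E : Set Z} (hE : IsClopen E) : Adm (Ty E) := by
  intro a ha
  obtain ⟨h1, h2, h3⟩ := ty_some_iff ha
  by_cases hf : E.Finite
  · left
    rw [← h2, lim_of_fin hE hf, ncard_empty]
  · right
    rw [← h3]
    exact Set.Infinite.ncard hf

theorem ty_add {A B : Set Z} (hA : IsClopen A) (hB : IsClopen B) (hd : Disjoint A B) :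
    Ty (A ∪ B) = add (Ty A) (Ty B) := by
  by_cases h1 : (A ∩ L2 Z).Nonempty
  · rw [ty_none h1, none_add]
    exact ty_none (h1.mono (inter_subset_inter_left _ subset_union_left))
  by_cases h2 : (B ∩ L2 Z).Nonempty
  · rw [ty_none h2, add_none]
    exact ty_none (h2.mono (inter_subset_inter_left _ subset_union_right))
  have h3 : ¬ ((A ∪ B) ∩ L2 Z).Nonempty := by
    rintro ⟨x, hx | hx, hl⟩
    · exact h1 ⟨x, hx, hl⟩
    · exact h2 ⟨x, hx, hl⟩
  have fA : (lim A).Finite := lim_fin hA fun x hx hl => h1 ⟨x, hx, hl⟩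
  have fB : (lim B).Finite := lim_fin hB fun x hx hl => h2 ⟨x, hx, hl⟩
  have h4 : lim (A ∪ B) = lim A ∪ lim B := by
    ext x
    constructor
    · rintro ⟨hx | hx, hn⟩
      · exact Or.inl ⟨hx, hn⟩
      · exact Or.inr ⟨hx, hn⟩
    · rintro (⟨hx, hn⟩ | ⟨hx, hn⟩)
      · exact ⟨Or.inl hx, hn⟩
      · exact ⟨Or.inr hx, hn⟩
  have h5 : (lim (A ∪ B)).ncard = (lim A).ncard + (lim B).ncard := by
    rw [h4]
    refine ncard_union_eq ?_ fA fB
    exact hd.mono (fun x hx => hx.1) (fun x hx => hx.1)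
  have h6 : (A ∪ B).ncard = if (lim A).ncard + (lim B).ncard = 0 then A.ncard + B.ncard
      else 0 := by
    by_cases h0 : (lim A).ncard + (lim B).ncard = 0
    · rw [if_pos h0]
      have e1 : lim A = ∅ := (ncard_eq_zero fA).1 (by omega)
      have e2 : lim B = ∅ := (ncard_eq_zero fB).1 (by omega)
      exact ncard_union_eq hd (fin_of_lim hA e1) (fin_of_lim hB e2)
    · rw [if_neg h0]
      refine Set.Infinite.ncard fun hf => h0 ?_
      rw [← h5, lim_of_fin (hA.union hB) hf, ncard_empty]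
  rw [ty_some h1, ty_some h2, ty_some h3, add_some, h5, h6]

theorem ty_diff {F B : Set Z} (hF : IsClopen F) (hB : IsClopen B) (h : B ⊆ F) :
    Ty F = add (Ty B) (Ty (F \ B)) := by
  rw [← ty_add hB (hF.diff hB) disjoint_sdiff_right, union_diff_cancel h]

theorem ty_empty {E : Set Z} (hE : IsClopen E) : Ty E = some (0, 0) ↔ E = ∅ := by
  constructor
  · intro h
    obtain ⟨h1, h2, h3⟩ := ty_some_iff h
    have e1 : lim E = ∅ := (ncard_eq_zero (lim_fin hE h1)).1 h2
    exact (ncard_eq_zero (fin_of_lim hE e1)).1 h3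
  · rintro rfl
    rw [ty_some (by rw [empty_inter]; exact not_nonempty_empty), ncard_empty]
    have : lim (∅ : Set Z) = ∅ := eq_empty_iff_forall_notMem.2 fun x hx => hx.1
    rw [this, ncard_empty]

variable [TotallyDisconnectedSpace Z]

theorem ex_ty {F : Set Z} (hF : IsClopen F) {a : ℕ × ℕ} (ha : a.1 = 0 ∨ a.2 = 0)
    (h0 : a.1 = 0 → ∃ S : Set Z, S ⊆ {x | x ∈ F ∧ Io x} ∧ S.Finite ∧ S.ncard = a.2)
    (h1 : 0 < a.1 → ∃ S : Set Z, S ⊆ r1 F ∧ S.Finite ∧ S.ncard = a.1) :
    ∃ B : Set Z, IsClopen B ∧ B ⊆ F ∧ Ty B = some a := by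
  by_cases hc : a.1 = 0
  · obtain ⟨S, hS, hf, hn⟩ := h0 hc
    refine ⟨S, clopen_fin hf fun x hx => (hS hx).2, fun x hx => (hS hx).1, ?_⟩
    have e1 : lim S = ∅ := eq_empty_iff_forall_notMem.2 fun x hx => hx.2 (hS hx.1).2
    rw [ty_some (fun ⟨x, hx, hl⟩ => l2_not_io hl (hS hx).2), e1, ncard_empty, hn]
    exact congrArg some (Prod.ext hc.symm rfl)
  · obtain ⟨S, hS, hf, hn⟩ := h1 (Nat.pos_of_ne_zero hc)
    obtain ⟨B, hB, hBF, hl⟩ := r1_set hF hf hS
    refine ⟨B, hB, hBF, ?_⟩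
    have e0 : ¬ (B ∩ L2 Z).Nonempty := by
      rintro ⟨x, hx, hx'⟩
      have : x ∈ lim B := ⟨hx, l2_not_io hx'⟩
      rw [hl] at this
      exact (hS this).2.2 hx'
    have e1 : B.ncard = 0 := by
      refine Set.Infinite.ncard fun hfB => hc ?_
      rw [← hn, ← hl, lim_of_fin hB hfB, ncard_empty]
    have e2 : a.2 = 0 := ha.resolve_left hc
    rw [ty_some e0, hl, hn, e1]
    exact congrArg some (Prod.ext rfl e2.symm)

theorem split1 (hZ : NT2 Z) {F : Set Z} (hF : IsClopen F) {a : ℕ × ℕ} {t : Option (ℕ × ℕ)}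
    (ha : Adm (some a)) (ht : Adm t) (h : Ty F = add (some a) t)
    (hc : a.1 = 0 ∨ ∀ b, t = some b → 0 < b.1) :
    ∃ B : Set Z, IsClopen B ∧ B ⊆ F ∧ Ty B = some a ∧ Ty (F \ B) = t := by
  obtain ⟨B, hB, hBF, hT⟩ : ∃ B : Set Z, IsClopen B ∧ B ⊆ F ∧ Ty B = some a := by
    refine ex_ty hF (ha a rfl) (fun h0 => ?_) (fun h0 => ?_)
    · cases t with
      | none =>
        rw [add_none, ty_none_iff] at h
        have h2 := (inf_io hF (inf_r1 hZ hF h).nonempty)
        exact h2.exists_subset_ncard_eq a.2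
      | some b =>
        rw [add_some] at h
        obtain ⟨h1, h2, h3⟩ := ty_some_iff h
        by_cases hb : b.1 = 0
        · have e1 : lim F = ∅ := (ncard_eq_zero (lim_fin hF h1)).1 (by
            rw [h2]
            show a.1 + b.1 = 0
            omega)
          have e2 : F.Finite := fin_of_lim hF e1
          have e3 : F.ncard = a.2 + b.2 := by
            rw [h3]
            show (if a.1 + b.1 = 0 then a.2 + b.2 else 0) = a.2 + b.2
            rw [if_pos (by omega)]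
          obtain ⟨S, hS, hn⟩ := exists_subset_card_eq (s := F) (n := a.2) (by omega)
          refine ⟨S, fun x hx => ⟨hS hx, ?_⟩, e2.subset hS, hn⟩
          by_contra hn
          exact eq_empty_iff_forall_notMem.1 e1 x ⟨hS hx, hn⟩
        · have e1 : (lim F).Nonempty := by
            rw [nonempty_iff_ne_empty]
            intro e
            rw [e, ncard_empty] at h2
            have : (0 : ℕ) = a.1 + b.1 := h2
            omega
          obtain ⟨y, hy⟩ := e1
          have h4 := inf_io hF ⟨y, hy.1, hy.2, h1 y hy.1⟩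
          exact h4.exists_subset_ncard_eq a.2
    · cases t with
      | none =>
        rw [add_none, ty_none_iff] at h
        exact (inf_r1 hZ hF h).exists_subset_ncard_eq a.1
      | some b =>
        rw [add_some] at h
        obtain ⟨h1, h2, h3⟩ := ty_some_iff h
        have e2 : (lim F).ncard = a.1 + b.1 := h2
        obtain ⟨S, hS, hn⟩ := exists_subset_card_eq (s := lim F) (n := a.1) (by omega)
        refine ⟨S, fun x hx => ⟨(hS hx).1, (hS hx).2, h1 x (hS hx).1⟩,
          (lim_fin hF h1).subset hS, hn⟩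
  refine ⟨B, hB, hBF, hT, ?_⟩
  refine cancel (ty_adm (hF.diff hB)) ht ?_ hc
  rw [← h, ty_diff hF hB hBF, hT]

theorem split (hZ : NT2 Z) {F : Set Z} (hF : IsClopen F) {s t : Option (ℕ × ℕ)}
    (hs : Adm s) (ht : Adm t) (h : Ty F = add s t) :
    ∃ B : Set Z, IsClopen B ∧ B ⊆ F ∧ Ty B = s ∧ Ty (F \ B) = t := by
  have sw : (∃ B : Set Z, IsClopen B ∧ B ⊆ F ∧ Ty B = t ∧ Ty (F \ B) = s) →
      ∃ B : Set Z, IsClopen B ∧ B ⊆ F ∧ Ty B = s ∧ Ty (F \ B) = t := by
    rintro ⟨B, hB, hBF, h1, h2⟩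
    refine ⟨F \ B, hF.diff hB, diff_subset, h2, ?_⟩
    rw [diff_diff_cancel_left hBF]
    exact h1
  cases s with
  | none =>
    cases t with
    | none =>
      rw [add_none, ty_none_iff] at h
      obtain ⟨x, hx, hl⟩ := h
      obtain ⟨y, hy, hne, hyl⟩ := hZ.perf x hl F hF.isOpen hx
      have h1 : IsOpen (F \ {y}) := hF.isOpen.sdiff isClosed_singleton
      obtain ⟨B, hB, hxB, hBU⟩ := compact_exists_isClopen_in_isOpen h1 ⟨hx, fun e => hne e.symm⟩
      refine ⟨B, hB, fun z hz => (hBU hz).1, ty_none ⟨x, hxB, hl⟩,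
        ty_none ⟨y, ⟨hy, fun hz => (hBU hz).2 rfl⟩, hyl⟩⟩
    | some b =>
      refine sw (split1 hZ hF ht hs ?_ (Or.inr fun c hc => by cases hc))
      rw [h, add_comm']
  | some a =>
    cases t with
    | none => exact split1 hZ hF hs ht h (Or.inr fun c hc => by cases hc)
    | some b =>
      by_cases ha : a.1 = 0
      · exact split1 hZ hF hs ht h (Or.inl ha)
      by_cases hb : b.1 = 0
      · refine sw (split1 hZ hF ht hs ?_ (Or.inl hb))
        rw [h, add_comm']
      · refine split1 hZ hF hs ht h (Or.inr fun c hc => ?_)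
        rw [← Option.some.inj hc]
        exact Nat.pos_of_ne_zero hb

end

theorem t_N2 : S_VT → S_N2 := by
  intro hVT X Y _ _ _ _ _ _ _ _ _ _ hX hY
  refine hVT X Y (fun E F => Ty E = Ty F) ?_ ?_ ?_ ?_
  · show Ty (univ : Set X) = Ty (univ : Set Y)
    rw [ty_none (by rw [univ_inter]; exact hX.ne), ty_none (by rw [univ_inter]; exact hY.ne)]
  · intro E F hE hF h
    have h' : Ty E = Ty F := h
    rw [← ty_empty hE, ← ty_empty hF, h']
  · intro E F A hE hF hA hAE h
    have h' : Ty E = Ty F := h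
    obtain ⟨B, hB, hBF, h1, h2⟩ := split hY hF (ty_adm hA) (ty_adm (hE.diff hA))
      (by rw [← h', ty_diff hE hA hAE])
    exact ⟨B, hB, hBF, h1.symm, h2.symm⟩
  · intro E F B hE hF hB hBF h
    have h' : Ty E = Ty F := h
    obtain ⟨A, hA, hAE, h1, h2⟩ := split hX hE (ty_adm hB) (ty_adm (hF.diff hB))
      (by rw [h', ty_diff hF hB hBF])
    exact ⟨A, hA, hAE, h1, h2⟩

end Pool.Agent.H921.KK
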